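import Pool.Agent.TH76.LehP.GoldA

set_option autoImplicit false

/-!
Primes `q` with many primes `2 k q + 1`, `k ≤ q ^ (1 - δ)`: a positive proportion in all windows `(Y, Y ^ 2]`.
-/

namespace Run7.h675.GP

open Finset Filter Pool.Agent.TH76.LehP

/-- For some `K` between `p ^ δ` and `p ^ (1 - δ)` at least `c K / log K` of the numbers `2 k p + 1`,
`1 ≤ k ≤ K`, are prime. -/
def Good (δ c : ℝ) (p : ℕ) : Prop :=
  ∃ K : ℕ, (p : ℝ) ^ δ ≤ K ∧ (K : ℝ) ≤ (p : ℝ) ^ (1 - δ) ∧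
    c * (K / Real.log K) ≤ (((Icc 1 K).filter fun k => (2 * k * p + 1).Prime).card : ℝ)

lemma P1_card (t q : ℕ) (hq : q.Prime) (hq2 : 2 < q) :
    (P1 t q).card ≤ ((Icc 1 ((t - 1) / (2 * q))).filter fun k => (2 * k * q + 1).Prime).card := by
  have h1 : P1 t q ⊆ ((Icc 1 ((t - 1) / (2 * q))).filter fun k => (2 * k * q + 1).Prime).image
      (fun k => 2 * k * q + 1) := by
    intro r hr
    obtain ⟨h2, h3, h4⟩ := mem_P1.1 hr
    have h5 := h3.two_le
    have hr2 : r ≠ 2 := by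
      rintro rfl
      have := Nat.le_of_dvd (by norm_num) h4
      omega
    have hro : Odd r := h3.odd_of_ne_two hr2
    have hqo : Odd q := hq.odd_of_ne_two (by omega)
    have h6 : 2 ∣ r - 1 := by
      obtain ⟨a, ha⟩ := hro
      exact ⟨a, by omega⟩
    have h7 : 2 * q ∣ r - 1 := by
      apply Nat.Coprime.mul_dvd_of_dvd_of_dvd _ h6 h4
      exact (Nat.coprime_two_left).2 hqo
    obtain ⟨k, hk⟩ := h7
    have hrk : r = 2 * k * q + 1 := by
      have : r = 2 * q * k + 1 := by omega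
      rw [this]; ring
    rw [mem_image]
    refine ⟨k, ?_, hrk.symm⟩
    rw [mem_filter, mem_Icc]
    refine ⟨⟨?_, ?_⟩, ?_⟩
    · rcases Nat.eq_zero_or_pos k with h8 | h8
      · subst h8; simp at hrk; omega
      · exact h8
    · rw [Nat.le_div_iff_mul_le (by positivity)]
      have : k * (2 * q) = r - 1 := by rw [hk]; ring
      omega
    · rw [← hrk]; exact h3
  exact (card_le_card h1).trans card_image_le

theorem recip_le : ∃ Y₀ : ℕ, ∀ Y z : ℕ, Y₀ ≤ Y → z ≤ Y ^ 2 →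
    ∑ q ∈ (Ioc Y z).filter (fun q => q.Prime), (1 / (q : ℝ)) ≤ 2 := by
  obtain ⟨C, hC⟩ := Pool.Agent.Helper923.HMertens.mertens_log
  have hC0 : 0 ≤ C := (abs_nonneg _).trans (hC 1 le_rfl)
  obtain ⟨Y₀, hY₀⟩ := eventually_atTop.1 ((ev_log (2 * C + 1)).and (eventually_ge_atTop 3))
  refine ⟨Y₀, fun Y z hY hz => ?_⟩
  obtain ⟨h1, h2⟩ := hY₀ Y hY
  have hY0 : (0 : ℝ) < Y := by exact_mod_cast (by omega : 0 < Y)
  have hLY : 0 < Real.log Y := by linarith
  rcases Nat.lt_or_ge z Y with h3 | h3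
  · rw [Ioc_eq_empty (by omega)]
    simp
  have hz0 : 0 < z := by omega
  have e1 : ∑ q ∈ (Icc 1 z).filter Nat.Prime, Real.log q / q =
      ∑ q ∈ (Icc 1 Y).filter Nat.Prime, Real.log q / q +
      ∑ q ∈ (Ioc Y z).filter Nat.Prime, Real.log q / q := by
    rw [← sum_union]
    · congr 1
      ext q
      simp only [mem_filter, mem_Icc, mem_Ioc, mem_union]
      constructor
      · rintro ⟨⟨a, b⟩, c⟩
        rcases Nat.lt_or_ge Y q with h | h
        · exact Or.inr ⟨⟨h, b⟩, c⟩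
        · exact Or.inl ⟨⟨a, h⟩, c⟩
      · rintro (⟨⟨a, b⟩, c⟩ | ⟨⟨a, b⟩, c⟩)
        · exact ⟨⟨a, by omega⟩, c⟩
        · exact ⟨⟨by omega, b⟩, c⟩
    · rw [disjoint_left]
      intro q h4 h5
      rw [mem_filter, mem_Icc] at h4
      rw [mem_filter, mem_Ioc] at h5
      omega
  have e2 := abs_le.1 (hC z hz0)
  have e3 := abs_le.1 (hC Y (by omega))
  have e4 : Real.log z ≤ 2 * Real.log Y := by
    have h4 : Real.log z ≤ Real.log ((Y : ℝ) ^ 2) := by
      apply Real.log_le_log (by exact_mod_cast hz0)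
      exact_mod_cast hz
    rwa [Real.log_pow, Nat.cast_ofNat] at h4
  have e5 : ∑ q ∈ (Ioc Y z).filter Nat.Prime, Real.log q / q ≤ 2 * Real.log Y := by
    linarith [e2.1, e2.2, e3.1, e3.2]
  have e6 : Real.log Y * ∑ q ∈ (Ioc Y z).filter (fun q => q.Prime), (1 / (q : ℝ)) ≤
      ∑ q ∈ (Ioc Y z).filter Nat.Prime, Real.log q / q := by
    rw [mul_sum]
    apply sum_le_sum
    intro q hq
    rw [mem_filter, mem_Ioc] at hq
    have hq0 : (0 : ℝ) < q := by exact_mod_cast (by omega : 0 < q)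
    rw [mul_one_div]
    apply div_le_div_of_nonneg_right _ hq0.le
    apply Real.log_le_log hY0
    exact_mod_cast hq.1.1.le
  have e7 : Real.log Y * ∑ q ∈ (Ioc Y z).filter (fun q => q.Prime), (1 / (q : ℝ)) ≤
      Real.log Y * 2 := by linarith
  exact le_of_mul_le_mul_left e7 hLY

open Classical in
theorem windows : ∃ δ c : ℝ, 0 < δ ∧ δ < 1 / 2 ∧ 0 < c ∧ ∃ Y₀ : ℕ, 2 ≤ Y₀ ∧ ∀ Y : ℕ, Y₀ ≤ Y →
    c ≤ ∑ p ∈ (Ioc Y (Y ^ 2)).filter (fun p => p.Prime ∧ Good δ c p), (1 / (p : ℝ)) := by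
  obtain ⟨c₀, κ, hc₀, hκ, hκ4, T, hG⟩ := goldA
  obtain ⟨C, hC1, hbt⟩ := bt_one
  obtain ⟨Y₁, hrec⟩ := recip_le
  have hC : 0 < C := by linarith
  obtain ⟨s, hs⟩ : ∃ s : ℝ, s = 2 / (1 + 2 * κ) := ⟨_, rfl⟩
  have hs1 : s * (1 / 2 + κ) = 1 := by rw [hs]; field_simp
  have hs2 : s < 2 := by
    rw [hs, div_lt_iff₀ (by linarith)]
    nlinarith
  have hs3 : 1 < s := by
    rw [hs, lt_div_iff₀ (by linarith)]
    linarith
  have hs4 : s - 1 ≤ 1 - κ / 2 := by
    have h1 : s ≤ 2 - κ / 2 := by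
      rw [hs, div_le_iff₀ (by linarith)]
      nlinarith
    linarith
  obtain ⟨c, hcdef⟩ : ∃ c : ℝ, c = min (c₀ / 4 * (κ / 2)) (c₀ / 2 * (κ / C)) := ⟨_, rfl⟩
  have hc : 0 < c := by rw [hcdef]; positivity
  have hca : c ≤ c₀ / 4 * (κ / 2) := by rw [hcdef]; exact min_le_left _ _
  have hcb : c ≤ c₀ / 2 * (κ / C) := by rw [hcdef]; exact min_le_right _ _
  obtain ⟨Y₂, hY₂⟩ := eventually_atTop.1 ((ev_rpow 2 (2 - s) (by linarith)).and
    ((ev_rpow 8 (κ / 2) (by linarith)).and (eventually_ge_atTop 3)))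
  refine ⟨κ / 2, c, by linarith, by linarith, hc, max (max T Y₁) (max Y₂ 3), by
    have := le_max_right (max T Y₁) (max Y₂ 3)
    have := le_max_right Y₂ 3
    omega, fun Y hY => ?_⟩
  have hYT : T ≤ Y := (le_max_left T Y₁).trans ((le_max_left _ _).trans hY)
  have hY1 : Y₁ ≤ Y := (le_max_right T Y₁).trans ((le_max_left _ _).trans hY)
  have hY2 : Y₂ ≤ Y := (le_max_left Y₂ 3).trans ((le_max_right _ _).trans hY)
  obtain ⟨b1, b2, b3⟩ := hY₂ Y hY2
  have hY0 : (0 : ℝ) < Y := by exact_mod_cast (by omega : 0 < Y)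
  have hY3 : (3 : ℝ) ≤ Y := by exact_mod_cast b3
  obtain ⟨t, ht⟩ : ∃ t : ℕ, t = ⌈(Y : ℝ) ^ s⌉₊ := ⟨_, rfl⟩
  have t1 : (Y : ℝ) ^ s ≤ t := by rw [ht]; exact Nat.le_ceil _
  have t2 : (t : ℝ) < (Y : ℝ) ^ s + 1 := by rw [ht]; exact Nat.ceil_lt_add_one (by positivity)
  have hYs : (Y : ℝ) ≤ (Y : ℝ) ^ s := by
    calc (Y : ℝ) = (Y : ℝ) ^ (1 : ℝ) := (Real.rpow_one _).symm
      _ ≤ (Y : ℝ) ^ s := Real.rpow_le_rpow_of_exponent_le (by linarith) hs3.le
  have hYt : (Y : ℝ) ≤ t := hYs.trans t1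
  have hYtn : Y ≤ t := by exact_mod_cast hYt
  have t3 : (t : ℝ) ≤ (Y : ℝ) ^ 2 := by
    have h1 : 2 * (Y : ℝ) ^ s ≤ (Y : ℝ) ^ 2 := by
      calc 2 * (Y : ℝ) ^ s ≤ (Y : ℝ) ^ (2 - s) * (Y : ℝ) ^ s :=
            mul_le_mul_of_nonneg_right b1 (by positivity)
        _ = (Y : ℝ) ^ ((2 : ℕ) : ℝ) := by rw [← Real.rpow_add hY0]; norm_num
        _ = (Y : ℝ) ^ 2 := Real.rpow_natCast _ _
    linarith
  have t3n : t ≤ Y ^ 2 := by exact_mod_cast t3
  have ht0 : (0 : ℝ) < t := by linarith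
  have ht1 : (1 : ℝ) ≤ t := by linarith
  have t4 : (Y : ℝ) ≤ (t : ℝ) ^ (1 / 2 + κ) := by
    calc (Y : ℝ) = (Y : ℝ) ^ (s * (1 / 2 + κ)) := by rw [hs1, Real.rpow_one]
      _ = ((Y : ℝ) ^ s) ^ (1 / 2 + κ) := Real.rpow_mul hY0.le _ _
      _ ≤ (t : ℝ) ^ (1 / 2 + κ) := Real.rpow_le_rpow (by positivity) t1 (by linarith)
  have hLt : 0 < Real.log t := Real.log_pos (by linarith)
  have hgold := hG t Y (by omega) t3n t4
  set z : ℕ := ⌊(t : ℝ) ^ (1 - κ)⌋₊ with hz
  have hzle : (z : ℝ) ≤ (t : ℝ) ^ (1 - κ) := Nat.floor_le (by positivity)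
  have hzt : z ≤ t := by
    have : (z : ℝ) ≤ t := by
      refine hzle.trans ?_
      calc (t : ℝ) ^ (1 - κ) ≤ (t : ℝ) ^ (1 : ℝ) :=
            Real.rpow_le_rpow_of_exponent_le ht1 (by linarith)
        _ = t := Real.rpow_one _
    exact_mod_cast this
  have hrecz := hrec Y z hY1 (hzt.trans t3n)
  set U := (Ioc Y z).filter (fun q => q.Prime) with hU
  set V := U.filter (fun q => c₀ / 4 * ((t : ℝ) / q) / Real.log t ≤ ((P1 t q).card : ℝ)) with hV
  have hUq : ∀ q ∈ U, Y < q ∧ q ≤ z ∧ q.Prime := by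
    intro q hq
    rw [hU, mem_filter, mem_Ioc] at hq
    exact ⟨hq.1.1, hq.1.2, hq.2⟩
  have hUt : ∀ q ∈ U, (q : ℝ) ≤ (t : ℝ) ^ (1 - κ) := fun q hq =>
    le_trans (by exact_mod_cast (hUq q hq).2.1) hzle
  -- the sum over `V`
  have hsum : ∑ q ∈ U, ((P1 t q).card : ℝ) ≤
      (t / Real.log t) * ((C / κ) * ∑ q ∈ V, (1 / (q : ℝ)) + c₀ / 4 * ∑ q ∈ U, (1 / (q : ℝ))) := by
    have h1 : ∑ q ∈ U, ((P1 t q).card : ℝ) ≤ ∑ q ∈ U,
        ((if q ∈ V then (C / κ) * (t / q) / Real.log t else 0) + c₀ / 4 * ((t : ℝ) / q) / Real.log t) := by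
      apply sum_le_sum
      intro q hq
      obtain ⟨a1, a2, a3⟩ := hUq q hq
      have hq0 : (0 : ℝ) < q := by exact_mod_cast a3.pos
      split_ifs with hv
      · have h2 := hbt κ hκ (by linarith) t q (by omega) a3 (hUt q hq)
        have h3 : 0 ≤ c₀ / 4 * ((t : ℝ) / q) / Real.log t := by positivity
        linarith
      · have h2 : ¬ (c₀ / 4 * ((t : ℝ) / q) / Real.log t ≤ ((P1 t q).card : ℝ)) := by
          intro h3
          exact hv (by rw [hV, mem_filter]; exact ⟨hq, h3⟩)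
        push Not at h2
        linarith
    refine h1.trans (le_of_eq ?_)
    rw [sum_add_distrib, ← sum_filter, mul_add]
    have h4 : U.filter (fun q => q ∈ V) = V := by
      ext q
      rw [mem_filter]
      constructor
      · exact fun h => h.2
      · intro h
        exact ⟨(mem_filter.1 h).1, h⟩
    rw [h4]
    congr 1
    · rw [mul_sum, mul_sum]
      apply sum_congr rfl
      intro q _
      ring
    · rw [mul_sum, mul_sum]
      apply sum_congr rfl
      intro q _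
      ring
  have hVlow : c₀ / 2 * (κ / C) ≤ ∑ q ∈ V, (1 / (q : ℝ)) := by
    have h1 : c₀ * (t / Real.log t) ≤ (t / Real.log t) * ((C / κ) * ∑ q ∈ V, (1 / (q : ℝ)) +
        c₀ / 4 * ∑ q ∈ U, (1 / (q : ℝ))) := hgold.trans hsum
    rw [mul_comm] at h1
    have h2 := le_of_mul_le_mul_left h1 (by positivity)
    have h3 : c₀ / 4 * ∑ q ∈ U, (1 / (q : ℝ)) ≤ c₀ / 4 * 2 :=
      mul_le_mul_of_nonneg_left hrecz (by positivity)
    have h4 : c₀ / 2 ≤ (C / κ) * ∑ q ∈ V, (1 / (q : ℝ)) := by linarith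
    calc c₀ / 2 * (κ / C) ≤ ((C / κ) * ∑ q ∈ V, (1 / (q : ℝ))) * (κ / C) :=
          mul_le_mul_of_nonneg_right h4 (by positivity)
      _ = ∑ q ∈ V, (1 / (q : ℝ)) := by field_simp
  refine hcb.trans (hVlow.trans ?_)
  apply sum_le_sum_of_subset_of_nonneg
  · intro q hq
    rw [hV, mem_filter] at hq
    obtain ⟨hqU, hqV⟩ := hq
    obtain ⟨a1, a2, a3⟩ := hUq q hqU
    rw [mem_filter, mem_Ioc]
    refine ⟨⟨a1, (a2.trans hzt).trans t3n⟩, a3, (t - 1) / (2 * q), ?_, ?_, ?_⟩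
    · -- lower bound for `K`
      have hq0 : (0 : ℝ) < q := by exact_mod_cast a3.pos
      have hqt : (q : ℝ) ≤ t := by exact_mod_cast a2.trans hzt
      have k1 : ((t - 1 : ℕ) : ℝ) < (((t - 1) / (2 * q) : ℕ) + 1 : ℝ) * (2 * q) := by
        have : t - 1 < ((t - 1) / (2 * q) + 1) * (2 * q) := by
          have := Nat.lt_div_mul_add (a := t - 1) (b := 2 * q) (by have := a3.pos; omega)
          calc t - 1 < (t - 1) / (2 * q) * (2 * q) + 2 * q := this
            _ = _ := by ring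
        exact_mod_cast this
      rw [Nat.cast_sub (by omega), Nat.cast_one] at k1
      have k2 : (t : ℝ) ^ κ * q ≤ t := by
        calc (t : ℝ) ^ κ * q ≤ (t : ℝ) ^ κ * (t : ℝ) ^ (1 - κ) :=
              mul_le_mul_of_nonneg_left (hUt q hqU) (by positivity)
          _ = t := by rw [← Real.rpow_add ht0]; simp
      have k3 : 8 ≤ (t : ℝ) ^ (κ / 2) :=
        b2.trans (Real.rpow_le_rpow hY0.le hYt (by linarith))
      have k4 : (t : ℝ) ^ κ = (t : ℝ) ^ (κ / 2) * (t : ℝ) ^ (κ / 2) := by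
        rw [← Real.rpow_add ht0]; congr 1; ring
      have k5 : (q : ℝ) ^ (κ / 2) ≤ (t : ℝ) ^ (κ / 2) :=
        Real.rpow_le_rpow hq0.le hqt (by linarith)
      set w := (t : ℝ) ^ (κ / 2) with hw
      set K : ℝ := (((t - 1) / (2 * q) : ℕ) : ℝ) with hK
      rw [k4] at k2
      have k6 : 8 * w * q ≤ w * w * q := by
        apply mul_le_mul_of_nonneg_right _ hq0.le
        exact mul_le_mul_of_nonneg_right k3 (by linarith)
      have k7 : (1 : ℝ) ≤ q := by exact_mod_cast a3.pos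
      have k8 : (8 * w) * q ≤ ((K + 1) * 2 + 1) * q := by nlinarith
      have k9 := le_of_mul_le_mul_right k8 hq0
      linarith
    · -- upper bound for `K`
      have hq0 : (0 : ℝ) < q := by exact_mod_cast a3.pos
      have k1 : (((t - 1) / (2 * q) : ℕ) : ℝ) * (2 * q) ≤ t := by
        have : (t - 1) / (2 * q) * (2 * q) ≤ t := (Nat.div_mul_le_self _ _).trans (by omega)
        exact_mod_cast this
      have k2 : (t : ℝ) ≤ 2 * (q : ℝ) ^ s := by
        have h1 : (Y : ℝ) ^ s ≤ (q : ℝ) ^ s :=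
          Real.rpow_le_rpow hY0.le (by exact_mod_cast a1.le) (by linarith)
        linarith
      have k3 : (q : ℝ) ^ s = (q : ℝ) ^ (s - 1) * q := by
        rw [Real.rpow_sub_one hq0.ne']; field_simp
      have k4 : (q : ℝ) ^ (s - 1) ≤ (q : ℝ) ^ (1 - κ / 2) := by
        apply Real.rpow_le_rpow_of_exponent_le _ hs4
        exact_mod_cast a3.pos
      rw [k3] at k2
      set K : ℝ := (((t - 1) / (2 * q) : ℕ) : ℝ) with hK
      have k5 : K * (2 * q) ≤ (q : ℝ) ^ (s - 1) * (2 * q) := by linarith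
      exact (le_of_mul_le_mul_right k5 (by positivity)).trans k4
    · -- the count
      have hq0 : (0 : ℝ) < q := by exact_mod_cast a3.pos
      have hqt : (q : ℝ) ≤ t := by exact_mod_cast a2.trans hzt
      have hcount : ((P1 t q).card : ℝ) ≤
          (((Icc 1 ((t - 1) / (2 * q))).filter fun k => (2 * k * q + 1).Prime).card : ℝ) := by
        exact_mod_cast P1_card t q a3 (by omega)
      refine le_trans ?_ (hqV.trans hcount)
      have k1 : (((t - 1) / (2 * q) : ℕ) : ℝ) * (2 * q) ≤ t := by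
        have : (t - 1) / (2 * q) * (2 * q) ≤ t := (Nat.div_mul_le_self _ _).trans (by omega)
        exact_mod_cast this
      have klow : (q : ℝ) ^ (κ / 2) ≤ (((t - 1) / (2 * q) : ℕ) : ℝ) := by
        have k1 : ((t - 1 : ℕ) : ℝ) < (((t - 1) / (2 * q) : ℕ) + 1 : ℝ) * (2 * q) := by
          have : t - 1 < ((t - 1) / (2 * q) + 1) * (2 * q) := by
            have := Nat.lt_div_mul_add (a := t - 1) (b := 2 * q) (by have := a3.pos; omega)
            calc t - 1 < (t - 1) / (2 * q) * (2 * q) + 2 * q := this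
              _ = _ := by ring
          exact_mod_cast this
        rw [Nat.cast_sub (by omega), Nat.cast_one] at k1
        have k2 : (t : ℝ) ^ κ * q ≤ t := by
          calc (t : ℝ) ^ κ * q ≤ (t : ℝ) ^ κ * (t : ℝ) ^ (1 - κ) :=
                mul_le_mul_of_nonneg_left (hUt q hqU) (by positivity)
            _ = t := by rw [← Real.rpow_add ht0]; simp
        have k3 : 8 ≤ (t : ℝ) ^ (κ / 2) :=
          b2.trans (Real.rpow_le_rpow hY0.le hYt (by linarith))
        have k4 : (t : ℝ) ^ κ = (t : ℝ) ^ (κ / 2) * (t : ℝ) ^ (κ / 2) := by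
          rw [← Real.rpow_add ht0]; congr 1; ring
        have k5 : (q : ℝ) ^ (κ / 2) ≤ (t : ℝ) ^ (κ / 2) :=
          Real.rpow_le_rpow hq0.le hqt (by linarith)
        set w := (t : ℝ) ^ (κ / 2) with hw
        set K : ℝ := (((t - 1) / (2 * q) : ℕ) : ℝ) with hK
        rw [k4] at k2
        have k6 : 8 * w * q ≤ w * w * q := by
          apply mul_le_mul_of_nonneg_right _ hq0.le
          exact mul_le_mul_of_nonneg_right k3 (by linarith)
        have k7 : (1 : ℝ) ≤ q := by exact_mod_cast a3.pos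
        have k8 : (8 * w) * q ≤ ((K + 1) * 2 + 1) * q := by nlinarith
        have k9 := le_of_mul_le_mul_right k8 hq0
        linarith
      have hlogY : Real.log t ≤ 2 * Real.log Y := by
        have h4 : Real.log t ≤ Real.log ((Y : ℝ) ^ 2) := Real.log_le_log ht0 t3
        rwa [Real.log_pow, Nat.cast_ofNat] at h4
      have hlogq : Real.log Y ≤ Real.log q := Real.log_le_log hY0 (by exact_mod_cast a1.le)
      have hlogK : κ / 2 * Real.log q ≤ Real.log (((t - 1) / (2 * q) : ℕ) : ℝ) := by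
        have h5 := Real.log_le_log (by positivity) klow
        rwa [Real.log_rpow hq0] at h5
      set K : ℝ := (((t - 1) / (2 * q) : ℕ) : ℝ) with hK
      have hK0 : 0 ≤ K := Nat.cast_nonneg _
      have hlogK2 : κ / 4 * Real.log t ≤ Real.log K := by nlinarith
      have hpos : 0 < κ / 4 * Real.log t := by positivity
      have hKt : K ≤ t / q / 2 := by
        rw [le_div_iff₀ (by norm_num), le_div_iff₀ hq0]
        linarith
      calc c * (K / Real.log K) ≤ (c₀ / 4 * (κ / 2)) * ((t / q / 2) / (κ / 4 * Real.log t)) := by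
            apply mul_le_mul hca _ (div_nonneg hK0 (hpos.le.trans hlogK2)) (by positivity)
            exact div_le_div₀ (by positivity) hKt hpos hlogK2
        _ = c₀ / 4 * ((t : ℝ) / q) / Real.log t := by field_simp; ring
  · intro q _ _
    positivity

end Run7.h675.GP
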